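import Pool.Agent.Helper67.RS.LDI
import Pool.Agent.Helper80.RS.LRS
import Pool.Agent.Helper48.RS.WOU
import Pool.Agent.Helper5.RS.WIN
import Pool.Agent.Helper6.RS.RCU
import Pool.Agent.Helper18.RS.RDI
import Pool.Agent.Helper27.RS.IDM
import Pool.Agent.Helper64.RS.GMU
import Pool.Agent.Helper15.RS.GDI
import Pool.Agent.Helper67.RS.CPT
import Pool.Agent.Helper66.RS.MKF
import Pool.Agent.Helper66.RS.COR
import Pool.Agent.Helper66.RS.EXT
import Pool.Agent.Helper42.RS.GAM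
import Pool.Agent.Helper58.RS.DEL
import Pool.Agent.Helper58.RS.CONm
import Pool.Agent.Helper98.RS.KAP
import Pool.Agent.Helper73.RS.ITS
import Pool.Agent.Helper73.RS.CMB
import Pool.Agent.Helper73.RS.PWR
import Pool.Agent.Helper73.RS.ELL
import Pool.Agent.Helper73.RS.Main

/-! MP_ecaebc_co: every finite colouring of the positive integers has infinite sets `A`, `B` with
`B`, the sums `a + b` for `a < b` and the products `a * b` for `b < a` of one colour; for at most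
two colours ALL the sums `a + b` have this colour too. -/

namespace Pool.Agent.Results.MP_ecaebc_co.CrossedAndTwoColours

open Pool.Agent.Helper73.RS

theorem result : ∀ (r : ℕ) (c : ℕ → Fin r), ∃ (A B : Set ℕ) (t : Fin r),
    A.Infinite ∧ B.Infinite ∧ (∀ a ∈ A, 0 < a) ∧ (∀ b ∈ B, 0 < b) ∧ (∀ b ∈ B, c b = t) ∧
      (∀ a ∈ A, ∀ b ∈ B, a < b → c (a + b) = t) ∧
      (r ≤ 2 → ∀ a ∈ A, ∀ b ∈ B, c (a + b) = t) ∧
      (∀ a ∈ A, ∀ b ∈ B, b < a → c (a * b) = t) ∧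
      ∀ b ∈ B, ∀ F : Finset ℕ, (∀ x ∈ F, x ∈ A ∧ x < b) → c (b + ∑ x ∈ F, x) = t ∧
        ∀ a ∈ A, b < a → c ((b + ∑ x ∈ F, x) * a) = t ∧
          (r ≤ 2 → c ((b + ∑ x ∈ F, x) + a) = t) := by
  have hLDI := Pool.Agent.Helper67.RS.holds_LDI
  have hRDI := Pool.Agent.Helper18.RS.holds_RDI hLDI Pool.Agent.Helper80.RS.holds_LRS
  have hIDM := Pool.Agent.Helper27.RS.holds_IDM Pool.Agent.Helper5.RS.holds_WIN
    Pool.Agent.Helper6.RS.holds_RCU
  intro r c
  by_cases hr : r ≤ 2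
  · obtain ⟨m, hm, hid, hd⟩ := holds_ELL hIDM Pool.Agent.Helper64.RS.holds_GMU
      (Pool.Agent.Helper15.RS.holds_GDI hLDI hRDI) Pool.Agent.Helper67.RS.holds_CPT
      Pool.Agent.Helper66.RS.holds_MKF
    obtain ⟨t', ht⟩ := ana Pool.Agent.Helper66.RS.holds_COR Pool.Agent.Helper42.RS.holds_GAM
      Pool.Agent.Helper98.RS.holds_KAP Pool.Agent.Helper58.RS.holds_DEL
      Pool.Agent.Helper58.RS.holds_CON m hm hid hd (fun x => Fin.castLE hr (c x))
    obtain ⟨P, hP, hL⟩ := Pool.Agent.Helper66.RS.holds_EXT Pool.Agent.Helper48.RS.holds_WOU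
      Pool.Agent.Helper5.RS.holds_WIN holds_ITS m hm _ ht
    have hP' : ∀ V ∈ P, Large V ∧ Rec V := by
      intro V hV
      constructor
      · by_contra hcon
        exact (hP V hV).ne' (hm.large V hcon)
      · by_contra hcon
        exact (hP V hV).ne' (hm.recur V hcon)
    obtain ⟨A, B, hA, hB, hA0, hB0, h1, h2, h3, h4⟩ :=
      part_two holds_CMB (fun x => Fin.castLE hr (c x)) P t' hP' hL
    obtain ⟨b, hb⟩ := hB.nonempty
    have hinj : ∀ x, Fin.castLE hr (c x) = t' → c x = c b := fun x hx =>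
      Fin.castLE_injective hr (hx.trans (h1 b hb).symm)
    exact ⟨A, B, c b, hA, hB, hA0, hB0, fun b' hb' => hinj _ (h1 b' hb'),
      fun a ha b' hb' _ => hinj _ (h2 a ha b' hb'), fun _ a ha b' hb' => hinj _ (h2 a ha b' hb'),
      fun a ha b' hb' hab => hinj _ (h3 a ha b' hb' hab), fun b' hb' F hF =>
      ⟨hinj _ (h4 b' hb' F hF).1, fun a ha hab =>
        ⟨hinj _ ((h4 b' hb' F hF).2 a ha hab).2, fun _ => hinj _ ((h4 b' hb' F hF).2 a ha hab).1⟩⟩⟩
  · obtain ⟨P, t, hP, hL⟩ := holds_PWR hLDI hRDI hIDM r c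
    obtain ⟨A, B, hA, hB, hA0, hB0, h1, h2, h3, h4⟩ := part_one holds_CMB c P t hP hL
    exact ⟨A, B, t, hA, hB, hA0, hB0, h1, h2, fun h => absurd h hr, h3, fun b hb F hF =>
      ⟨(h4 b hb F hF).1, fun a ha hab => ⟨(h4 b hb F hF).2 a ha hab, fun h => absurd h hr⟩⟩⟩

end Pool.Agent.Results.MP_ecaebc_co.CrossedAndTwoColours
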