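import Pool.Agent.Helper16.MK.Two

/-!
# MP_ecaebc_co: one finite colouring forces all elements of `A` and `B` to be multiples of `K`,
almost killed by given multiplicative functions, and one side to have bounded valuations

For every `K`, every finite list of completely multiplicative unimodular functions `h i` and every
`ε > 0` there is a finite colouring `c` such that `c (a + b) = c (a b)` has only finitely many
solutions `b` unless `K ∣ a` and `|h i a - 1| < ε` for all `i`, and such that for every prime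
`p ≤ K` a monochromatic `(A + B) ∪ AB` has the `p`-adic valuation bounded on `A` or on `B`.

Main tool (`potential`): colour `n` by the argument of `n ^ (i t)` where `p ^ (i t)` is close to
`h p` for all primes up to a slowly growing bound (Kronecker's theorem).
-/

set_option autoImplicit false

namespace Pool.Agent.Results.MP_ecaebc_co.NeutralMultiples

open Pool.Agent.Helper16.MK

lemma combine (s : ℕ) (p : Fin s → ℕ) (hp : ∀ i, (p i).Prime) :
    ∃ (r : ℕ) (c : ℕ → Fin r), ∀ A B : Set ℕ, (∀ a ∈ A, 0 < a) → (∀ b ∈ B, 0 < b) →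
      (∃ t, ∀ a ∈ A, ∀ b ∈ B, c (a + b) = t ∧ c (a * b) = t) →
      ∀ i, (∃ L, ∀ a ∈ A, padicValNat (p i) a ≤ L) ∨ (∃ L, ∀ b ∈ B, padicValNat (p i) b ≤ L) := by
  induction s with
  | zero => exact ⟨1, fun _ => 0, fun A B _ _ _ i => i.elim0⟩
  | succ s ih =>
    obtain ⟨r, c, hc⟩ := ih (fun i => p i.castSucc) (fun i => hp _)
    obtain ⟨r', c', hc'⟩ := two (p (Fin.last s)) (hp _)
    refine ⟨r * r', fun n => finProdFinEquiv (c n, c' n), fun A B hA hB ⟨t, ht⟩ i => ?_⟩
    refine Fin.lastCases ?_ (fun i => ?_) i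
    · refine hc' A B hA hB ⟨(finProdFinEquiv.symm t).2, fun a ha b hb => ?_⟩
      constructor
      · rw [← (ht a ha b hb).1, Equiv.symm_apply_apply]
      · rw [← (ht a ha b hb).2, Equiv.symm_apply_apply]
    · refine hc A B hA hB ⟨(finProdFinEquiv.symm t).1, fun a ha b hb => ?_⟩ i
      constructor
      · rw [← (ht a ha b hb).1, Equiv.symm_apply_apply]
      · rw [← (ht a ha b hb).2, Equiv.symm_apply_apply]

/-- For every `K`, completely multiplicative unimodular `h i` and `ε > 0` there is a finite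
colouring `c` of the naturals such that (1) if `K` does not divide `a` or `|h i a - 1| ≥ ε` for
some `i`, then `c (a + b) = c (a b)` for only finitely many `b`; (2) if `A`, `B` are infinite and
`(A + B) ∪ AB` is monochromatic, then every `x ∈ A ∪ B` is a multiple of `K` with
`|h i x - 1| < ε`, and for every prime `p ≤ K` the valuation `v_p` is bounded on `A` or on `B`. -/
theorem result (K : ℕ) (hK : 0 < K) (s : ℕ) (h : Fin s → ℕ → ℂ)
    (hmul : ∀ i m n, 0 < m → 0 < n → h i (m * n) = h i m * h i n)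
    (hnorm : ∀ i n, 0 < n → ‖h i n‖ = 1) (ε : ℝ) (hε : 0 < ε) :
    ∃ (r : ℕ) (c : ℕ → Fin r),
      (∀ a : ℕ, 0 < a → (¬ K ∣ a ∨ ∃ i, ε ≤ ‖h i a - 1‖) →
        {b : ℕ | 0 < b ∧ c (a + b) = c (a * b)}.Finite) ∧
      (∀ A B : Set ℕ, A.Infinite → B.Infinite → (∀ a ∈ A, 0 < a) → (∀ b ∈ B, 0 < b) →
        (∃ t, ∀ a ∈ A, ∀ b ∈ B, c (a + b) = t ∧ c (a * b) = t) →
        (∀ x ∈ A ∪ B, K ∣ x ∧ ∀ i, ‖h i x - 1‖ < ε) ∧
        ∀ p : ℕ, p.Prime → p ≤ K →
          (∃ L, ∀ a ∈ A, padicValNat p a ≤ L) ∨ (∃ L, ∀ b ∈ B, padicValNat p b ≤ L)) := by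
  classical
  have hav : Avoidable ({a | 0 < a ∧ ¬ K ∣ a} ∪
      ⋃ i ∈ (Finset.univ : Finset (Fin s)), {a | ε ≤ ‖h i a - 1‖}) :=
    (avoidable_not_dvd K hK).union
      (avoidable_biUnion _ _ fun i _ => avoidable_norm (h i) (hmul i) (hnorm i) ε hε)
  obtain ⟨r, c, hc⟩ := hav
  set S : Finset ℕ := (Finset.range (K + 1)).filter Nat.Prime with hS
  obtain ⟨r', c', hc'⟩ := combine S.card (fun i => (S.equivFin.symm i : ℕ))
    (fun i => (Finset.mem_filter.1 (S.equivFin.symm i).2).2)
  set C : ℕ → Fin (r * r') := fun n => finProdFinEquiv (c n, c' n) with hC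
  have one : ∀ a : ℕ, 0 < a → (¬ K ∣ a ∨ ∃ i, ε ≤ ‖h i a - 1‖) →
      {b : ℕ | 0 < b ∧ C (a + b) = C (a * b)}.Finite := by
    intro a ha hbad
    refine (hc a ?_ ha).subset ?_
    · rcases hbad with hd | ⟨i, hi⟩
      · exact Or.inl ⟨ha, hd⟩
      · exact Or.inr (Set.mem_biUnion (x := i) (Finset.mem_coe.2 (Finset.mem_univ i)) hi)
    · rintro b ⟨hb, hbc⟩
      exact ⟨hb, congrArg Prod.fst (finProdFinEquiv.injective hbc)⟩
  refine ⟨r * r', C, one, fun A B hAi hBi hA hB ⟨t, ht⟩ => ⟨?_, ?_⟩⟩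
  · -- every element is neutral
    have key : ∀ A B : Set ℕ, B.Infinite → (∀ a ∈ A, 0 < a) → (∀ b ∈ B, 0 < b) →
        (∀ a ∈ A, ∀ b ∈ B, C (a + b) = C (a * b)) →
        ∀ x ∈ A, K ∣ x ∧ ∀ i, ‖h i x - 1‖ < ε := by
      intro A B hBi hA hB hCC x hx
      by_contra hcon
      have hbad : ¬ K ∣ x ∨ ∃ i, ε ≤ ‖h i x - 1‖ := by
        by_cases hd : K ∣ x
        · right
          by_contra hno
          push Not at hno
          exact hcon ⟨hd, hno⟩
        · exact Or.inl hd
      exact hBi ((one x (hA x hx) hbad).subset fun b hb => ⟨hB b hb, hCC x hx b hb⟩)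
    rintro x (hx | hx)
    · exact key A B hBi hA hB (fun a ha b hb => (ht a ha b hb).1.trans (ht a ha b hb).2.symm) x hx
    · refine key B A hAi hB hA (fun b hb a ha => ?_) x hx
      rw [add_comm b a, mul_comm b a]
      exact (ht a ha b hb).1.trans (ht a ha b hb).2.symm
  · intro p hp hpK
    have hpS : p ∈ S := by
      rw [hS, Finset.mem_filter, Finset.mem_range]
      exact ⟨by omega, hp⟩
    have h1 := hc' A B hA hB ⟨(finProdFinEquiv.symm t).2, fun a ha b hb => by
      constructor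
      · rw [← (ht a ha b hb).1, hC, Equiv.symm_apply_apply]
      · rw [← (ht a ha b hb).2, hC, Equiv.symm_apply_apply]⟩ (S.equivFin ⟨p, hpS⟩)
    simpa using h1

end Pool.Agent.Results.MP_ecaebc_co.NeutralMultiples
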