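import Mathlib

namespace Pool.Agent.Results.MP_ecaebc_co.OneSidedInfinite

open Finset

/-- Piecewise syndetic sets of naturals. -/
def PS (B : Set ℕ) : Prop :=
  ∃ H : ℕ, ∀ N : ℕ, ∃ x : ℕ, ∀ n ≤ N, ∃ h ≤ H, x + n + h ∈ B

theorem PS_univ : PS Set.univ := ⟨0, fun _ => ⟨0, fun _ _ => ⟨0, le_rfl, trivial⟩⟩⟩

theorem PS.mono {B B' : Set ℕ} (h : PS B) (hs : B ⊆ B') : PS B' := by
  obtain ⟨H, hH⟩ := h
  refine ⟨H, fun N => ?_⟩
  obtain ⟨x, hx⟩ := hH N
  refine ⟨x, fun n hn => ?_⟩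
  obtain ⟨k, hk, hk'⟩ := hx n hn
  exact ⟨k, hk, hs hk'⟩

theorem not_PS_empty : ¬ PS (∅ : Set ℕ) := by
  rintro ⟨H, hH⟩
  obtain ⟨x, hx⟩ := hH 0
  obtain ⟨k, _, hk'⟩ := hx 0 le_rfl
  exact hk'

theorem PS_union {B B' : Set ℕ} (h : PS (B ∪ B')) : PS B ∨ PS B' := by
  obtain ⟨H, hH⟩ := h
  by_cases hB : PS B
  · exact Or.inl hB
  · right
    refine ⟨H, fun N => ?_⟩
    have hB' : ∃ N', ∀ x, ∃ n ≤ N', ∀ h ≤ N + H, x + n + h ∉ B := by
      by_contra hcon
      apply hB
      refine ⟨N + H, fun N' => ?_⟩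
      by_contra hc2
      apply hcon
      refine ⟨N', fun x => ?_⟩
      by_contra hc3
      apply hc2
      refine ⟨x, fun n hn => ?_⟩
      by_contra hc4
      apply hc3
      refine ⟨n, hn, fun h hh hmem => ?_⟩
      exact hc4 ⟨h, hh, hmem⟩
    obtain ⟨N', hN'⟩ := hB'
    obtain ⟨x, hx⟩ := hH (N' + N)
    obtain ⟨n0, hn0, hn0'⟩ := hN' x
    refine ⟨x + n0, fun n hn => ?_⟩
    obtain ⟨h, hh, hmem⟩ := hx (n0 + n) (by omega)
    refine ⟨h, hh, ?_⟩
    rcases hmem with hm | hm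
    · exfalso
      apply hn0' (n + h) (by omega)
      have : x + n0 + (n + h) = x + (n0 + n) + h := by ring
      rw [this]; exact hm
    · have : x + n0 + n + h = x + (n0 + n) + h := by ring
      rw [this]; exact hm

theorem PS_biUnion {ι : Type*} (s : Finset ι) (f : ι → Set ℕ)
    (h : PS (⋃ i ∈ s, f i)) : ∃ i ∈ s, PS (f i) := by
  classical
  induction s using Finset.induction_on with
  | empty => simp at h; exact absurd h not_PS_empty
  | insert a s ha ih =>
    rw [Finset.set_biUnion_insert] at h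
    rcases PS_union h with h1 | h1
    · exact ⟨a, Finset.mem_insert_self _ _, h1⟩
    · obtain ⟨i, hi, hi'⟩ := ih h1
      exact ⟨i, Finset.mem_insert_of_mem hi, hi'⟩

theorem PS_color {κ : Type*} [Finite κ] (c : ℕ → κ) {B : Set ℕ} (h : PS B) :
    ∃ t : κ, PS (B ∩ c ⁻¹' {t}) := by
  classical
  have := Fintype.ofFinite κ
  have : B ⊆ ⋃ t ∈ (Finset.univ : Finset κ), B ∩ c ⁻¹' {t} := by
    intro x hx
    simp [hx]
  obtain ⟨t, _, ht⟩ := PS_biUnion _ _ (h.mono this)
  exact ⟨t, ht⟩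

theorem PS_dilate {B : Set ℕ} (h : PS B) {y : ℕ} (hy : 0 < y) :
    PS {z | ∃ b ∈ B, z = y * b} := by
  obtain ⟨H, hH⟩ := h
  refine ⟨y + y * H, fun N => ?_⟩
  obtain ⟨x, hx⟩ := hH (N + 1)
  refine ⟨y * x, fun m hm => ?_⟩
  have h1 : m / y + 1 ≤ N + 1 := by
    have := Nat.div_le_self m y
    omega
  obtain ⟨h, hh, hmem⟩ := hx (m / y + 1) h1
  have h2 := Nat.div_add_mod m y
  have h3 := Nat.mod_lt m hy
  refine ⟨y - m % y + y * h, ?_, x + (m / y + 1) + h, hmem, ?_⟩
  · have : y * h ≤ y * H := Nat.mul_le_mul_left _ hh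
    omega
  · have e1 : y * (x + (m / y + 1) + h) = y * x + (y * (m / y)) + y + y * h := by ring
    rw [e1]
    omega

theorem PS_infinite {B : Set ℕ} (h : PS B) (M : ℕ) : ∃ b ∈ B, M ≤ b := by
  obtain ⟨H, hH⟩ := h
  obtain ⟨x, hx⟩ := hH M
  obtain ⟨k, hk, hk'⟩ := hx M le_rfl
  exact ⟨_, hk', by omega⟩

/-- Finitary van der Waerden theorem in homothetic form. -/
theorem vdW_finite (κ : Type) [Finite κ] (S : Finset ℕ) :
    ∃ K : ℕ, ∀ C : ℕ → κ, ∃ a > 0, a ≤ K ∧ ∃ b ≤ K, ∃ t : κ,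
      ∀ s ∈ S, C (a * s + b) = t := by
  classical
  obtain ⟨ι, _inst, hι⟩ := Combinatorics.Line.exists_mono_in_high_dimension S κ
  refine ⟨Fintype.card ι + ∑ i : ι, S.sup id, fun C => ?_⟩
  specialize hι fun v => C <| ∑ i, (v i : ℕ)
  obtain ⟨l, t, hl⟩ := hι
  set s : Finset ι := {i | l.idxFun i = none} with hs
  refine ⟨#s, Finset.card_pos.mpr ⟨l.proper.choose, ?_⟩, ?_,
    ∑ i ∈ sᶜ, (Option.map (fun m : S => (m : ℕ)) (l.idxFun i)).getD 0, ?_, t, ?_⟩
  · rw [hs, Finset.mem_filter]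
    exact ⟨Finset.mem_univ _, l.proper.choose_spec⟩
  · exact le_trans (Finset.card_le_univ s) (Nat.le_add_right _ _)
  · refine le_trans ?_ (Nat.le_add_left _ _)
    refine le_trans (Finset.sum_le_sum (g := fun _ => S.sup id) ?_)
      (Finset.sum_le_sum_of_subset (Finset.subset_univ _))
    intro i _
    cases hi : l.idxFun i with
    | none => simp
    | some m => exact Finset.le_sup (f := id) m.2
  · intro x xs
    rw [← hl ⟨x, xs⟩]
    congr 1
    rw [← Finset.sum_add_sum_compl s]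
    congr 1
    · rw [← smul_eq_mul, ← Finset.sum_const]
      apply Finset.sum_congr rfl
      intro i hi
      rw [hs, Finset.mem_filter] at hi
      rw [l.apply_none _ _ hi.right]
    · apply Finset.sum_congr rfl
      intro i hi
      rw [hs, Finset.compl_filter, Finset.mem_filter] at hi
      obtain ⟨y, hy⟩ := Option.ne_none_iff_exists.mp hi.right
      rw [l.apply_some hy.symm, ← hy]
      rfl

theorem PS_vdW {B : Set ℕ} (h : PS B) (F : Finset ℕ) (q : ℕ) :
    ∃ y, q ≤ y ∧ q ∣ y ∧ PS {b | b ∈ B ∧ ∀ f ∈ F, b + y * f ∈ B} := by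
  classical
  obtain ⟨H, hH⟩ := h
  obtain ⟨K, hK⟩ := vdW_finite (Fin (H + 1)) (insert 0 (F.image (fun f => q * f)))
  set S : Finset ℕ := insert 0 (F.image (fun f => q * f)) with hS
  have key : PS (⋃ a ∈ (Finset.Icc 1 K : Finset ℕ),
      {b | b ∈ B ∧ ∀ f ∈ F, b + (a * q) * f ∈ B}) := by
    refine ⟨K + H, fun N => ?_⟩
    obtain ⟨x, hx⟩ := hH (N + K * S.sup id + K)
    refine ⟨x, fun n hn => ?_⟩
    have hcol : ∀ m : ℕ, ∃ k : Fin (H + 1), m ≤ K * S.sup id + K → x + (n + m) + k ∈ B := by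
      intro m
      by_cases hm : m ≤ K * S.sup id + K
      · obtain ⟨h, hh, hmem⟩ := hx (n + m) (by omega)
        exact ⟨⟨h, by omega⟩, fun _ => hmem⟩
      · exact ⟨0, fun h => absurd h hm⟩
    choose C hC using hcol
    obtain ⟨a, ha0, haK, b, hbK, t, ht⟩ := hK C
    have hsup : ∀ s ∈ S, a * s + b ≤ K * S.sup id + K := by
      intro s hs
      have h1 : s ≤ S.sup id := Finset.le_sup (f := id) hs
      exact Nat.add_le_add (Nat.mul_le_mul haK h1) hbK
    have hmem : ∀ s ∈ S, x + (n + (a * s + b)) + t ∈ B := by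
      intro s hs
      have h1 := hC (a * s + b) (hsup s hs)
      rw [ht s hs] at h1
      exact h1
    refine ⟨b + t, by have := t.2; omega, ?_⟩
    simp only [Set.mem_iUnion, Finset.mem_Icc]
    refine ⟨a, ⟨ha0, haK⟩, ?_, ?_⟩
    · have h0 := hmem 0 (Finset.mem_insert_self _ _)
      have : x + n + (b + (t : ℕ)) = x + (n + (a * 0 + b)) + t := by ring
      rw [this]; exact h0
    · intro f hf
      have h0 := hmem (q * f) (Finset.mem_insert_of_mem (Finset.mem_image_of_mem _ hf))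
      have : x + n + (b + (t : ℕ)) + a * q * f = x + (n + (a * (q * f) + b)) + t := by ring
      rw [this]; exact h0
  obtain ⟨a, ha, hPS⟩ := PS_biUnion _ _ key
  rw [Finset.mem_Icc] at ha
  refine ⟨a * q, ?_, Dvd.intro_left a rfl, hPS⟩
  exact Nat.le_mul_of_pos_left q (by omega)

theorem step {κ : Type*} [Finite κ] (c : ℕ → κ) (B : Set ℕ) (hB : PS B) (F : Finset ℕ) :
    ∃ (y : ℕ) (B' : Set ℕ) (t : κ), 2 ≤ y ∧ PS B' ∧ (∀ x ∈ B', c x = t) ∧
      (∀ x ∈ B', ∃ x', x = y * x' ∧ x' ∈ B ∧ ∀ f ∈ F, x' + y * f ∈ B) := by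
  obtain ⟨y, hy2, _, hPS⟩ := PS_vdW hB F 2
  have h1 := PS_dilate hPS (y := y) (by omega)
  obtain ⟨t, ht⟩ := PS_color c h1
  refine ⟨y, _, t, hy2, ht, ?_, ?_⟩
  · rintro x ⟨_, hx⟩
    simpa using hx
  · rintro x ⟨⟨b, hb, rfl⟩, _⟩
    exact ⟨b, rfl, hb.1, hb.2⟩

/-- State of the construction: a piecewise syndetic set, a finite set of numbers and a bound. -/
abbrev St := {B : Set ℕ // PS B} × (Finset ℕ × ℕ)

/-- The chain. -/
theorem chain {κ : Type*} [Finite κ] (c : ℕ → κ) (H : ℕ → ℕ) :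
    ∃ (y : ℕ → ℕ) (B : ℕ → Set ℕ) (t : ℕ → κ) (M : ℕ → ℕ),
      (∀ j, 2 ≤ y j) ∧ (∀ j, PS (B j)) ∧ (∀ j, ∀ x ∈ B (j + 1), c x = t (j + 1)) ∧
      (∀ j, ∀ i ≤ j, ∀ i' ≤ j, i ≤ i' →
        H (∏ m ∈ Finset.Ico i i', y m) * (∏ m ∈ Finset.Ico i' j, y m) ≤ M j) ∧
      (∀ j, ∀ x ∈ B (j + 1), ∃ x', x = y j * x' ∧ x' ∈ B j ∧
        ∀ i ≤ j, ∀ w ≤ M j, x' + y j * ((∏ m ∈ Finset.Ico i j, y m) * w) ∈ B j) := by
  classical
  choose Y B' T hY hPS hT hB using step c
  -- the finite set of shifts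
  let F : Finset ℕ × ℕ → Finset ℕ := fun s =>
    (Finset.range (s.2 + 1)).biUnion (fun w => s.1.image (fun p => p * w))
  let nP : St → Finset ℕ := fun s => insert 1 (s.2.1.image (fun p => p * Y s.1.1 s.1.2 (F s.2)))
  let nxt : St → St := fun s =>
    (⟨B' s.1.1 s.1.2 (F s.2), hPS _ _ _⟩,
      (nP s, max (s.2.2 * Y s.1.1 s.1.2 (F s.2)) ((nP s).sup H)))
  let st : ℕ → St := fun j => Nat.rec (⟨Set.univ, PS_univ⟩, ({1}, H 1)) (fun _ s => nxt s) j
  have hst : ∀ j, st (j + 1) = nxt (st j) := fun j => rfl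
  let y : ℕ → ℕ := fun j => Y (st j).1.1 (st j).1.2 (F (st j).2)
  have hmemP : ∀ j, ∀ i ≤ j, (∏ m ∈ Finset.Ico i j, y m) ∈ (st j).2.1 := by
    intro j
    induction j with
    | zero =>
      intro i hi
      have : i = 0 := by omega
      subst this
      simp [st]
    | succ j ih =>
      intro i hi
      rw [hst]
      rcases Nat.lt_or_ge j i with hij | hij
      · have : i = j + 1 := by omega
        subst this
        simp [nxt, nP]
      · rw [Finset.prod_Ico_succ_top hij]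
        apply Finset.mem_insert_of_mem
        exact Finset.mem_image.mpr ⟨_, ih i hij, rfl⟩
  refine ⟨y, fun j => (st j).1.1,
    fun j => match j with
      | 0 => T (st 0).1.1 (st 0).1.2 (F (st 0).2)
      | j + 1 => T (st j).1.1 (st j).1.2 (F (st j).2), fun j => (st j).2.2, ?_, ?_, ?_, ?_, ?_⟩
  · intro j; exact hY _ _ _
  · intro j; exact (st j).1.2
  · intro j x hx
    change x ∈ (st (j + 1)).1.1 at hx
    rw [hst] at hx
    exact hT _ _ _ x hx
  · intro j
    induction j with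
    | zero =>
      intro i hi i' hi' hii
      have h1 : i = 0 := by omega
      have h2 : i' = 0 := by omega
      subst h1; subst h2
      simp [st]
    | succ j ih =>
      intro i hi i' hi' hii
      change _ ≤ (st (j + 1)).2.2
      rcases Nat.lt_or_ge j i' with hij | hij
      · have : i' = j + 1 := by omega
        subst this
        have h1 := hmemP (j + 1) i hi
        rw [hst] at h1 ⊢
        simp only [Finset.Ico_self, Finset.prod_empty, mul_one]
        exact le_trans (Finset.le_sup (f := H) h1) (le_max_right _ _)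
      · rw [hst, Finset.prod_Ico_succ_top hij]
        have h1 := ih i (by omega) i' hij hii
        change _ ≤ (st j).2.2 at h1
        refine le_trans ?_ (le_max_left _ _)
        rw [← mul_assoc]
        exact Nat.mul_le_mul_right _ h1
  · intro j x hx
    change x ∈ (st (j + 1)).1.1 at hx
    rw [hst] at hx
    obtain ⟨x', hx1, hx2, hx3⟩ := hB _ _ _ x hx
    refine ⟨x', hx1, hx2, ?_⟩
    intro i hi w hw
    apply hx3
    simp only [F, Finset.mem_biUnion, Finset.mem_range, Finset.mem_image]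
    exact ⟨w, Nat.lt_succ_of_le hw, _, hmemP j i hi, rfl⟩

theorem exists_seq (Q : ℕ → ℕ → Prop) (hQ : ∀ n M, ∃ b, M < b ∧ Q n b) :
    ∃ b : ℕ → ℕ, StrictMono b ∧ (∀ n, 0 < b n) ∧ ∀ n, Q n (b n) := by
  choose g hg1 hg2 using hQ
  let b : ℕ → ℕ := fun n => Nat.rec (g 0 0) (fun n prev => g (n + 1) prev) n
  have hb0 : b 0 = g 0 0 := rfl
  have hb : ∀ n, b (n + 1) = g (n + 1) (b n) := fun n => rfl
  have hmono : StrictMono b := by
    apply strictMono_nat_of_lt_succ
    intro n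
    rw [hb]
    exact hg1 _ _
  refine ⟨b, hmono, ?_, ?_⟩
  · intro n
    have h0 : 0 < b 0 := by rw [hb0]; exact hg1 _ _
    exact lt_of_lt_of_le h0 (hmono.monotone (Nat.zero_le n))
  · intro n
    cases n with
    | zero => rw [hb0]; exact hg2 _ _
    | succ n => rw [hb]; exact hg2 _ _

/-- For every finite colouring `c` of the positive integers and every function `H : ℕ → ℕ` there
are integers `x 0, x 1, x 2, … ≥ 2`, positive integers `b 0 < b 1 < …` and one colour `t` such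
that, with `X m = x 0 * x 1 * ⋯ * x (m-1)`, every number
`X m * b n + w m * x m + w (m+1) * x (m+1) + ⋯ + w (n-1) * x (n-1)`
with `m ≤ n` and `0 ≤ w k ≤ H (X k)` has colour `t`. -/
theorem result {κ : Type} [Finite κ] (c : ℕ → κ) (H : ℕ → ℕ) :
    ∃ (x b : ℕ → ℕ) (t : κ), (∀ k, 2 ≤ x k) ∧ StrictMono b ∧ (∀ n, 0 < b n) ∧
      ∀ m n, m ≤ n → ∀ w : ℕ → ℕ, (∀ k, w k ≤ H (∏ i ∈ Finset.range k, x i)) →
        c ((∏ i ∈ Finset.range m, x i) * b n + ∑ k ∈ Finset.Ico m n, w k * x k) = t := by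
  classical
  obtain ⟨y, B, t, M, hy, hPS, hcol, hM, hB⟩ := chain c H
  set P : ℕ → ℕ → ℕ := fun i j => ∏ m ∈ Finset.Ico i j, y m with hP
  have hypos : ∀ j, 0 < y j := fun j => by have := hy j; omega
  have hPpos : ∀ i j, 0 < P i j := fun i j => Finset.prod_pos (fun m _ => hypos m)
  have hPs : ∀ i j, i ≤ j → P i (j + 1) = P i j * y j := fun i j hij =>
    Finset.prod_Ico_succ_top hij _
  have hPmul : ∀ i j k, i ≤ j → j ≤ k → P i j * P j k = P i k := fun i j k hij hjk =>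
    Finset.prod_Ico_consecutive _ hij hjk
  -- downward closure
  have down1 : ∀ i j, i ≤ j → ∀ b, P i (j + 1) * b ∈ B (j + 1) → P i j * b ∈ B j := by
    intro i j hij b hb
    obtain ⟨x', hx1, hx2, _⟩ := hB j _ hb
    have : x' = P i j * b := by
      have e : y j * x' = y j * (P i j * b) := by
        rw [← hx1, hPs i j hij]; ring
      exact Nat.eq_of_mul_eq_mul_left (hypos j) e
    rwa [this] at hx2
  have down : ∀ i k j, i ≤ k → k ≤ j → ∀ b, P i j * b ∈ B j → P i k * b ∈ B k := by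
    intro i k j hik hkj
    induction j, hkj using Nat.le_induction with
    | base => intro b hb; exact hb
    | succ j hkj ih =>
      intro b hb
      exact ih b (down1 i j (le_trans hik hkj) b hb)
  -- every element of `B j` is a multiple of `P i j`
  have mult : ∀ i j, i ≤ j → ∀ z ∈ B j, ∃ b, z = P i j * b := by
    intro i j hij
    induction j, hij using Nat.le_induction with
    | base => intro z _; exact ⟨z, by simp [hP]⟩
    | succ j hij ih =>
      intro z hz
      obtain ⟨x', hx1, hx2, _⟩ := hB j _ hz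
      obtain ⟨b, hb⟩ := ih x' hx2
      refine ⟨b, ?_⟩
      rw [hx1, hb, hPs i j hij]; ring
  -- the shift property
  have shift : ∀ i j, i ≤ j → ∀ b, P i (j + 1) * b ∈ B (j + 1) →
      ∀ w ≤ M j, P i j * (b + w * y j) ∈ B j := by
    intro i j hij b hb w hw
    obtain ⟨x', hx1, hx2, hx3⟩ := hB j _ hb
    have hx' : x' = P i j * b := by
      have e : y j * x' = y j * (P i j * b) := by
        rw [← hx1, hPs i j hij]; ring
      exact Nat.eq_of_mul_eq_mul_left (hypos j) e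
    have h3 := hx3 i hij w hw
    have e : P i j * (b + w * y j) = x' + y j * ((∏ m ∈ Finset.Ico i j, y m) * w) := by
      rw [hx']
      simp only [hP]
      ring
    rw [e]
    exact h3
  -- pigeonhole
  obtain ⟨t0, ht0⟩ := Finite.exists_infinite_fiber t
  have hinf : (t ⁻¹' {t0}).Infinite := Set.infinite_coe_iff.mp ht0
  obtain ⟨φ, hφ, hφt⟩ : ∃ φ : ℕ → ℕ, StrictMono φ ∧ ∀ n : ℕ, 0 < φ n ∧ t (φ n) = t0 := by
    have : ∀ n M : ℕ, ∃ b, M < b ∧ (0 < b ∧ t b = t0) := by
      intro n M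
      obtain ⟨b, hb, hMb⟩ := hinf.exists_gt M
      exact ⟨b, hMb, by omega, hb⟩
    obtain ⟨b, hb1, _, hb3⟩ := exists_seq (fun _ b => 0 < b ∧ t b = t0) this
    exact ⟨b, hb1, hb3⟩
  have hφcol : ∀ n, ∀ z ∈ B (φ n), c z = t0 := by
    intro n z hz
    obtain ⟨h1, h2⟩ := hφt n
    obtain ⟨j, hj⟩ := Nat.exists_eq_succ_of_ne_zero h1.ne'
    rw [hj] at hz
    rw [hcol j z hz, ← h2, hj]
  -- choose `b`
  obtain ⟨b, hb1, hb2, hb3⟩ := exists_seq (fun n b => P (φ 0) (φ n) * b ∈ B (φ n)) (by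
    intro n M
    obtain ⟨z, hz, hMz⟩ := PS_infinite (hPS (φ n)) (P (φ 0) (φ n) * M + 1)
    obtain ⟨b, hb⟩ := mult (φ 0) (φ n) (hφ.monotone (Nat.zero_le n)) z hz
    refine ⟨b, ?_, by rw [← hb]; exact hz⟩
    by_contra hcon
    have : P (φ 0) (φ n) * b ≤ P (φ 0) (φ n) * M := Nat.mul_le_mul_left _ (not_lt.mp hcon)
    omega)
  have hxk : ∀ k, ∃ j, φ (k + 1) = j + 1 ∧ φ k ≤ j := by
    intro k
    have hlt : φ k < φ (k + 1) := hφ (Nat.lt_succ_self k)
    exact ⟨φ (k + 1) - 1, by omega, by omega⟩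
  have hprod0 : ∀ k, (∏ i ∈ Finset.range k, P (φ i) (φ (i + 1))) = P (φ 0) (φ k) := by
    intro k
    induction k with
    | zero => simp [hP]
    | succ k ih =>
      rw [Finset.prod_range_succ, ih]
      exact hPmul _ _ _ (hφ.monotone (Nat.zero_le k)) (hφ.monotone (Nat.le_succ k))
  refine ⟨fun k => P (φ k) (φ (k + 1)), b, t0, ?_, hb1, hb2, ?_⟩
  · intro k
    obtain ⟨j, hj, hkj⟩ := hxk k
    change 2 ≤ P (φ k) (φ (k + 1))
    rw [hj, hPs _ _ hkj]
    calc 2 ≤ y j := hy j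
      _ = 1 * y j := (one_mul _).symm
      _ ≤ P (φ k) j * y j := Nat.mul_le_mul_right _ (hPpos _ _)
  · intro m n hmn w hw
    simp only [hprod0] at hw ⊢
    -- invariant, going down from `n` to `m`
    have inv : ∀ d, ∀ k, k + d = n → m ≤ k →
        P (φ m) (φ k) * (P (φ 0) (φ m) * b n +
          ∑ i ∈ Finset.Ico k n, w i * P (φ i) (φ (i + 1))) ∈ B (φ k) := by
      intro d
      induction d with
      | zero =>
        intro k hk hmk
        have hk' : k = n := by omega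
        subst hk'
        simp only [Finset.Ico_self, Finset.sum_empty, add_zero]
        rw [← mul_assoc, mul_comm (P (φ m) (φ k)), hPmul _ _ _ (hφ.monotone (Nat.zero_le m))
          (hφ.monotone hmk)]
        exact hb3 k
      | succ d ih =>
        intro k hk hmk
        have h1 := ih (k + 1) (by omega) (by omega)
        obtain ⟨j, hj, hkj⟩ := hxk k
        rw [hj] at h1
        have hmj : φ m ≤ j := le_trans (hφ.monotone hmk) hkj
        have h2 := shift (φ m) j hmj _ h1 (w k * P (φ k) j) (by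
          refine le_trans (Nat.mul_le_mul_right _ (hw k)) ?_
          exact hM j (φ 0) (le_trans (hφ.monotone (Nat.zero_le k)) hkj) (φ k) hkj
            (hφ.monotone (Nat.zero_le k)))
        have h3 := down (φ m) (φ k) j (hφ.monotone hmk) hkj _ h2
        have e : P (φ 0) (φ m) * b n + ∑ i ∈ Finset.Ico k n, w i * P (φ i) (φ (i + 1)) =
            P (φ 0) (φ m) * b n + ∑ i ∈ Finset.Ico (k + 1) n, w i * P (φ i) (φ (i + 1)) +
              w k * P (φ k) j * y j := by
          rw [Finset.sum_eq_sum_Ico_succ_bot (by omega : k < n), hj, hPs _ _ hkj]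
          ring
        rw [e]
        exact h3
    have h1 := inv (n - m) m (by omega) le_rfl
    have h2 : P (φ m) (φ m) = 1 := by simp [hP]
    rw [h2, one_mul] at h1
    exact hφcol m _ h1

end Pool.Agent.Results.MP_ecaebc_co.OneSidedInfinite
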