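import Pool.Agent.Helper2.SPF.Padic

/-!
# MP_ecaebc_co: for every profinite integer `β` some colouring with `512` colours has no
monochromatic `(A + B) ∪ AB` with `β` a limit point of `B` (and, if `β = 0`, with `0` a limit
point of `A`).
-/

set_option autoImplicit false

namespace Pool.Agent.Results.MP_ecaebc_co.ProfiniteFibres

open Pool.Agent.Helper2.SPF

lemma exists_padic (p : ℕ) [Fact p.Prime] (g : ℕ → ℤ)
    (hg : ∀ i j, i ≤ j → (p : ℤ) ^ i ∣ g j - g i) :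
    ∃ x : ℤ_[p], ∀ i, (p : ℤ_[p]) ^ i ∣ (g i : ℤ_[p]) - x := by
  have hc : CauchySeq (fun n => (g n : ℤ_[p])) := by
    rw [Metric.cauchySeq_iff']
    intro ε hε
    obtain ⟨N, hN⟩ := PadicInt.exists_pow_neg_lt p hε
    refine ⟨N, fun n hn => ?_⟩
    rw [dist_eq_norm]
    have h1 : ‖((g n - g N : ℤ) : ℤ_[p])‖ ≤ (p : ℝ) ^ (-(N : ℤ)) :=
      PadicInt.norm_int_le_pow_iff_dvd.mpr (by exact_mod_cast hg N n hn)
    push_cast at h1
    exact h1.trans_lt hN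
  obtain ⟨x, hx⟩ := cauchySeq_tendsto_of_complete hc
  refine ⟨x, fun i => ?_⟩
  have hp0 : (0 : ℝ) < p := by exact_mod_cast (Fact.out : p.Prime).pos
  obtain ⟨N, hN⟩ := (Metric.tendsto_atTop.mp hx) ((p : ℝ) ^ (-(i : ℤ))) (by positivity)
  have h1 := hN (max N i) (le_max_left _ _)
  rw [dist_eq_norm] at h1
  have h2 : (p : ℤ_[p]) ^ i ∣ (g (max N i) : ℤ_[p]) - x := by
    rw [← Ideal.mem_span_singleton, ← PadicInt.norm_le_pow_iff_mem_span_pow]
    exact h1.le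
  have h3 : (p : ℤ_[p]) ^ i ∣ (g (max N i) : ℤ_[p]) - (g i : ℤ_[p]) := by
    have := (PadicInt.pow_p_dvd_int_iff (p := p) i (g (max N i) - g i)).mpr
      (hg i _ (le_max_right _ _))
    push_cast at this
    exact this
  have := dvd_sub h2 h3
  have e : (g (max N i) : ℤ_[p]) - x - ((g (max N i) : ℤ_[p]) - (g i : ℤ_[p])) =
      (g i : ℤ_[p]) - x := by ring
  rwa [e] at this

/-- For every profinite integer `β` some colouring with `512` colours has no monochromatic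
`(A + B) ∪ AB` with `β` a limit point of `B` (and, if `β = 0`, with `0` a limit point of `A`). -/
theorem result (β : ℕ → ℕ) (hβ : ∀ m n : ℕ, 0 < n → m ∣ n → β n ≡ β m [MOD m]) :
    ∃ c : ℕ → Fin 512, ∀ A B : Set ℕ, A.Nontrivial → (∀ a ∈ A, 0 < a) → (∀ b ∈ B, 0 < b) →
      (∀ m : ℕ, 0 < m → ∃ b ∈ B, b ≡ β m [MOD m]) →
      ((∀ m : ℕ, 0 < m → m ∣ β m) → ∀ m : ℕ, 0 < m → ∃ a ∈ A, m ∣ a) →
      ¬ ∃ k, ∀ a ∈ A, ∀ b ∈ B, c (a + b) = k ∧ c (a * b) = k := by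
  by_cases h0 : ∀ m : ℕ, 0 < m → m ∣ β m
  · refine ⟨fun n => ⟨colz n, colz_lt n⟩, fun A B _ hA hB hB1 hA1 => ?_⟩
    rintro ⟨k, hk⟩
    refine zero_fibre A B k.val ?_ ?_ fun a ha b hb =>
      ⟨congrArg Fin.val (hk a ha b hb).1, congrArg Fin.val (hk a ha b hb).2⟩
    · intro m hm
      obtain ⟨a, ha, had⟩ := hA1 h0 m hm
      exact ⟨a, ha, hA a ha, had⟩
    · intro m hm
      obtain ⟨b, hb, hbm⟩ := hB1 m hm
      exact ⟨b, hb, hB b hb, (hbm.dvd_iff dvd_rfl).mpr (h0 m hm)⟩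
  · push Not at h0
    obtain ⟨m, hm, hmd⟩ := h0
    -- a prime power
    obtain ⟨p, i, hp, hpi, hnd⟩ : ∃ p i : ℕ, p.Prime ∧ p ^ i ∣ m ∧ ¬ p ^ i ∣ β m := by
      by_contra hcon
      push Not at hcon
      apply hmd
      rw [Nat.dvd_iff_prime_pow_dvd_dvd]
      intro q j hq hj
      exact hcon q j hq hj
    have hpr : Fact p.Prime := ⟨hp⟩
    have hnd' : ¬ p ^ i ∣ β (p ^ i) := fun h => hnd (((hβ _ _ hm hpi).dvd_iff dvd_rfl).mpr h)
    obtain ⟨x, hx⟩ := exists_padic p (fun j => (β (p ^ j) : ℤ)) (by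
      intro j l hjl
      have := (hβ (p ^ j) (p ^ l) (pow_pos hp.pos l) (pow_dvd_pow p hjl)).symm.dvd
      exact_mod_cast this)
    have hx0 : x ≠ 0 := by
      rintro rfl
      have h1 := hx i
      rw [sub_zero] at h1
      have h2 := (PadicInt.pow_p_dvd_int_iff (p := p) i (β (p ^ i) : ℤ)).mp h1
      exact hnd' (by exact_mod_cast h2)
    obtain ⟨c, hc⟩ := padic_fibre p x hx0
    refine ⟨fun n => Fin.castLE (by norm_num) (c n), fun A B hA _ _ hB _ => ?_⟩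
    rintro ⟨k, hk⟩
    obtain ⟨a0, ha0, -⟩ := id hA
    obtain ⟨b0, hb0, -⟩ := hB 1 one_pos
    refine hc A B hA ?_ ⟨c (a0 + b0), fun a ha b hb => ?_⟩
    · rw [Metric.mem_closure_iff]
      intro ε hε
      obtain ⟨N, hN⟩ := PadicInt.exists_pow_neg_lt p hε
      obtain ⟨b, hb, hbm⟩ := hB (p ^ N) (pow_pos hp.pos N)
      refine ⟨_, ⟨b, hb, rfl⟩, ?_⟩
      have h1 : (p : ℤ_[p]) ^ N ∣ ((β (p ^ N) : ℤ) : ℤ_[p]) - (b : ℤ_[p]) := by
        have := (PadicInt.pow_p_dvd_int_iff (p := p) N ((β (p ^ N) : ℤ) - (b : ℤ))).mpr (by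
          have := hbm.dvd
          exact_mod_cast this)
        push_cast at this ⊢
        exact this
      have h2 : (p : ℤ_[p]) ^ N ∣ x - (b : ℤ_[p]) := by
        have := dvd_sub h1 (hx N)
        have e : ((β (p ^ N) : ℤ) : ℤ_[p]) - (b : ℤ_[p]) - (((β (p ^ N) : ℤ) : ℤ_[p]) - x) =
            x - (b : ℤ_[p]) := by ring
        rwa [e] at this
      rw [← Ideal.mem_span_singleton, ← PadicInt.norm_le_pow_iff_mem_span_pow] at h2
      rw [dist_eq_norm]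
      exact h2.trans_lt hN
    · have h1 := hk a ha b hb
      have h2 := hk a0 ha0 b0 hb0
      have h3 := Fin.castLE_injective _ (h1.1.trans h2.1.symm)
      have h4 := Fin.castLE_injective _ (h1.2.trans h2.1.symm)
      exact ⟨h3, h4⟩

end Pool.Agent.Results.MP_ecaebc_co.ProfiniteFibres
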